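import Pool.Agent.Helper35.PI2.St
import Pool.Agent.Helper67.PI.M_I1
import Pool.Agent.Helper51.PI.M_V6a

/-! Project PI2: module IB (helper45). The field `V` and its divergence are invariant. -/

set_option autoImplicit false

namespace Helper45.PI2

open Helper35.PI Helper35.PI2
open scoped ContDiff Manifold Topology ENNReal BigOperators
open MeasureTheory Set Filter

variable {n N : ℕ}

theorem inner_ee_IB (v : EE n) (a : Fin n) : (inner ℝ (ee a : EE n) v : ℝ) = v a := by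
  unfold ee
  rw [EuclideanSpace.inner_single_left]
  simp

/-- the hypotheses at one point, of finite order -/
structure QH (f h : EE n → EE N) (φ : EE n → EE n) (z : EE n) : Prop where
  hf : ContDiffAt ℝ 2 f (φ z)
  hφ : ContDiffAt ℝ 2 φ z
  hh : h =ᶠ[𝓝 z] (fun y => f (φ y))
  li : LI h z
  dm : DifferentiableAt ℝ (mcv f) (φ z)
  dn : DifferentiableAt ℝ (nsq f) (φ z)

/-- the Jacobian matrix -/
noncomputable def jac (φ : EE n → EE n) (z : EE n) : Matrix (Fin n) (Fin n) ℝ :=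
  Matrix.of fun i a => (fderiv ℝ φ z (ee i)) a

theorem QH.hJ {f h : EE n → EE N} {φ : EE n → EE n} {z : EE n} (q : QH f h φ z) (i : Fin n) :
    dv1 h z i = ∑ a, jac φ z i a • dv1 f (φ z) a := by
  rw [Helper67.PI.first f h φ z q.hf q.hφ q.hh i, Helper67.PI.fderiv_expand]
  rfl

theorem QH.sff {f h : EE n → EE N} {φ : EE n → EE n} {z : EE n} (hNR : StNR)
    (q : QH f h φ z) (i j : Fin n) :
    sff h z i j = ∑ a, ∑ b, (jac φ z i a * jac φ z j b) • sff f (φ z) a b := by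
  obtain ⟨hLIf, hspan, -⟩ := Helper67.PI.spans f h z (φ z) (jac φ z) q.hJ q.li
  have hnrm := Helper67.PI.nrm_eq hNR f h z (φ z) hLIf q.li hspan
  obtain ⟨-, f2, -, -, f5, f6, -, -⟩ := hNR n N f (φ z) hLIf
  let T : EE N →ₗ[ℝ] EE N :=
    { toFun := nrm f (φ z), map_add' := f5, map_smul' := f6 }
  have hT : ∀ v, T v = nrm f (φ z) v := fun v => rfl
  unfold Helper35.PI.sff
  rw [hnrm, Helper67.PI.second f h φ z q.hf q.hφ q.hh i j, f5,
    f2 _ (Helper67.PI.fderiv_mem f (φ z) _), add_zero,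
    Helper67.PI.second_expand f (φ z) q.hf, ← hT, map_sum]
  refine Finset.sum_congr rfl fun a _ => ?_
  rw [map_sum]
  refine Finset.sum_congr rfl fun b _ => ?_
  rw [map_smul]
  rfl

/-- the covectors transform by the Jacobian matrix -/
theorem core {f h : EE n → EE N} {φ : EE n → EE n} {z : EE n} (hNR : StNR) (hI1 : StI1)
    (hq : ∀ᶠ y in 𝓝 z, QH f h φ y) (μ : ℝ) (k : Fin n) :
    scv h z k = ∑ a, jac φ z k a * scv f (φ z) a ∧
    vcv μ h z k = ∑ a, jac φ z k a * vcv μ f (φ z) a := by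
  have q : QH f h φ z := hq.self_of_nhds
  obtain ⟨hLIf, hspan, hdet⟩ := Helper67.PI.spans f h z (φ z) (jac φ z) q.hJ q.li
  have hinv := Helper67.PI.gram_inv f h z (φ z) (jac φ z) q.hJ hdet
  have hφd : DifferentiableAt ℝ φ z := q.hφ.differentiableAt (by norm_num)
  have em : mcv h =ᶠ[𝓝 z] fun y => mcv f (φ y) := by
    filter_upwards [hq] with y qy
    exact (hI1 n N f h φ y qy.hf qy.hφ qy.hh qy.li).2.1
  have en : nsq h =ᶠ[𝓝 z] fun y => nsq f (φ y) := by
    filter_upwards [hq] with y qy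
    exact (hI1 n N f h φ y qy.hf qy.hφ qy.hh qy.li).2.2.1
  have dmc : ∀ m : Fin n, fderiv ℝ (mcv h) z (ee m)
      = ∑ a, jac φ z m a • fderiv ℝ (mcv f) (φ z) (ee a) := by
    intro m
    rw [em.fderiv_eq, fderiv_fun_comp z q.dm hφd, ContinuousLinearMap.comp_apply]
    exact Helper51.PI.lin_expand _ _
  have hS : ∀ k : Fin n, scv h z k = ∑ a, jac φ z k a * scv f (φ z) a := by
    intro k
    unfold scv
    have e1 : ∀ l m : Fin n, (gram h z)⁻¹ l m * (inner ℝ (sff h z k l)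
        (fderiv ℝ (mcv h) z (ee m)) : ℝ) = (gram h z)⁻¹ l m • ∑ r, ∑ s,
          (jac φ z l r * jac φ z m s) • (∑ a, jac φ z k a *
            (inner ℝ (sff f (φ z) a r) (fderiv ℝ (mcv f) (φ z) (ee s)) : ℝ)) := by
      intro l m
      rw [smul_eq_mul]
      congr 1
      rw [q.sff hNR k l, dmc m, sum_inner]
      have e2 : ∀ a : Fin n, (inner ℝ (∑ b, (jac φ z k a * jac φ z l b) • sff f (φ z) a b)
          (∑ s, jac φ z m s • fderiv ℝ (mcv f) (φ z) (ee s)) : ℝ)
          = ∑ r, ∑ s, jac φ z l r * jac φ z m s * (jac φ z k a *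
            (inner ℝ (sff f (φ z) a r) (fderiv ℝ (mcv f) (φ z) (ee s)) : ℝ)) := by
        intro a
        rw [sum_inner]
        refine Finset.sum_congr rfl fun r _ => ?_
        rw [inner_sum]
        refine Finset.sum_congr rfl fun s _ => ?_
        rw [real_inner_smul_left, real_inner_smul_right]
        ring
      rw [Finset.sum_congr rfl fun a _ => e2 a, Finset.sum_comm]
      refine Finset.sum_congr rfl fun r _ => ?_
      rw [Finset.sum_comm]
      refine Finset.sum_congr rfl fun s _ => ?_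
      rw [smul_eq_mul, Finset.mul_sum]
    simp_rw [e1]
    rw [Helper67.PI.contr, hinv]
    have e3 : ∀ r s : Fin n, (gram f (φ z))⁻¹ r s • (∑ a, jac φ z k a *
            (inner ℝ (sff f (φ z) a r) (fderiv ℝ (mcv f) (φ z) (ee s)) : ℝ))
        = ∑ a, jac φ z k a * ((gram f (φ z))⁻¹ r s *
            (inner ℝ (sff f (φ z) a r) (fderiv ℝ (mcv f) (φ z) (ee s)) : ℝ)) := by
      intro r s
      rw [smul_eq_mul, Finset.mul_sum]
      exact Finset.sum_congr rfl fun a _ => by ring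
    simp_rw [e3, Finset.mul_sum]
    symm
    rw [Finset.sum_comm]
    refine Finset.sum_congr rfl fun r _ => ?_
    rw [Finset.sum_comm]
  refine ⟨hS k, ?_⟩
  unfold vcv
  have dΦ : fderiv ℝ (fun y => 2 * (1 + μ) * nsq h y - ‖mcv h y‖ ^ 2) z (ee k)
      = ∑ a, jac φ z k a *
        fderiv ℝ (fun y => 2 * (1 + μ) * nsq f y - ‖mcv f y‖ ^ 2) (φ z) (ee a) := by
    have e1 : (fun y => 2 * (1 + μ) * nsq h y - ‖mcv h y‖ ^ 2) =ᶠ[𝓝 z]
        fun y => (fun w => 2 * (1 + μ) * nsq f w - ‖mcv f w‖ ^ 2) (φ y) := by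
      filter_upwards [em, en] with y h1 h2
      show 2 * (1 + μ) * nsq h y - ‖mcv h y‖ ^ 2 =
        2 * (1 + μ) * nsq f (φ y) - ‖mcv f (φ y)‖ ^ 2
      rw [h1, h2]
    have e2 : DifferentiableAt ℝ (fun w => 2 * (1 + μ) * nsq f w - ‖mcv f w‖ ^ 2) (φ z) :=
      (q.dn.const_mul _).sub (q.dm.norm_sq ℝ)
    rw [e1.fderiv_eq, fderiv_fun_comp z e2 hφd, ContinuousLinearMap.comp_apply,
      Helper51.PI.lin_expand]
    rfl
  rw [dΦ, hS k, Finset.mul_sum, ← Finset.sum_sub_distrib]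
  exact Finset.sum_congr rfl fun a _ => by ring

/-- the field at one point -/
theorem field_eq {f h : EE n → EE N} {φ : EE n → EE n} {z : EE n} (hNR : StNR) (hI1 : StI1)
    (hq : ∀ᶠ y in 𝓝 z, QH f h φ y) (μ : ℝ) : vfd μ h z = vfd μ f (φ z) := by
  have q : QH f h φ z := hq.self_of_nhds
  obtain ⟨hLIf, hspan, hdet⟩ := Helper67.PI.spans f h z (φ z) (jac φ z) q.hJ q.li
  have hinv := Helper67.PI.gram_inv f h z (φ z) (jac φ z) q.hJ hdet
  have e1 : ∀ k l : Fin n, ((gram h z)⁻¹ k l * vcv μ h z k) • dv1 h z l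
      = (gram h z)⁻¹ k l • ∑ r, ∑ s, (jac φ z k r * jac φ z l s) •
        (vcv μ f (φ z) r • dv1 f (φ z) s) := by
    intro k l
    rw [(core hNR hI1 hq μ k).2, q.hJ l, mul_smul]
    congr 1
    rw [Finset.sum_smul]
    refine Finset.sum_congr rfl fun r _ => ?_
    rw [Finset.smul_sum]
    refine Finset.sum_congr rfl fun s _ => ?_
    rw [smul_smul, smul_smul]
    congr 1
    ring
  unfold vfd
  simp_rw [e1]
  rw [Helper67.PI.contr, hinv]
  refine Finset.sum_congr rfl fun r _ => Finset.sum_congr rfl fun s _ => ?_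
  rw [smul_smul]

/-- Module IB. -/
theorem hIB (hNR : StNR) (hSM : StSM) (hI1 : StI1) (hIS : StIS) : StIB := by
  intro n N f h φ x hf hφ hh hLI μ
  have h1le : ∀ m : ℕ, ((m : ℕ∞) : WithTop ℕ∞) ≤ ((⊤ : ℕ∞) : WithTop ℕ∞) := fun m => WithTop.coe_le_coe.2 le_top
  have h2le : (2 : WithTop ℕ∞) ≤ ((⊤ : ℕ∞) : WithTop ℕ∞) := h1le 2
  have h1le' : (1 : WithTop ℕ∞) ≤ ((⊤ : ℕ∞) : WithTop ℕ∞) := h1le 1
  -- smoothness of `h`
  have hhs : ContDiffAt ℝ ∞ h x := (hf.comp x hφ).congr_of_eventuallyEq hh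
  have hLIf : LI f (φ x) :=
    (hI1 n N f h φ x (hf.of_le h2le) (hφ.of_le h2le) hh hLI).1
  have slice : ∀ {V : Type} [NormedAddCommGroup V] [NormedSpace ℝ V] (g : EE n → V) (y : EE n),
      ContDiffAt ℝ ∞ (fun z : EE n × ℝ => g z.1) (y, 0) → ContDiffAt ℝ ∞ g y := by
    intro V _ _ g y hg
    have h3 : ContDiffAt ℝ ∞ (fun w : EE n => (w, (0 : ℝ))) y :=
      contDiffAt_id.prodMk contDiffAt_const
    have h4 := ContDiffAt.comp (g := fun z : EE n × ℝ => g z.1)
      (f := fun w : EE n => (w, (0 : ℝ))) y hg h3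
    exact h4
  have lift : ∀ {V : Type} [NormedAddCommGroup V] [NormedSpace ℝ V] (g : EE n → V) (y : EE n),
      ContDiffAt ℝ ∞ g y → ContDiffAt ℝ ∞ (fun z : EE n × ℝ => g z.1) (y, 0) := by
    intro V _ _ g y hg
    exact ContDiffAt.comp (y, (0 : ℝ)) hg contDiffAt_fst
  have hSh := hSM n N (fun z => h z.1) (x, 0) (lift h x hhs) hLI
  have hSf := hSM n N (fun z => f z.1) (φ x, 0) (lift f (φ x) hf) hLIf
  have hmf : ContDiffAt ℝ ∞ (mcv f) (φ x) := slice (mcv f) (φ x) hSf.2.2.2.2.2.2.2.1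
  have hnf : ContDiffAt ℝ ∞ (nsq f) (φ x) := slice (nsq f) (φ x) hSf.2.2.2.2.2.2.2.2.1
  have hLIe : ∀ᶠ y in 𝓝 x, LI h y := by
    have h3 : Tendsto (fun w : EE n => (w, (0 : ℝ))) (𝓝 x) (𝓝 (x, 0)) :=
      (continuous_id.prodMk continuous_const).continuousAt
    exact (h3.eventually hSh.1).mono fun y hy => hy.1
  have hφc : ContinuousAt φ x := hφ.continuousAt
  have hq : ∀ᶠ y in 𝓝 x, QH f h φ y := by
    filter_upwards [hφc.eventually ((hf.of_le h2le).eventually (by decide)),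
      (hφ.of_le h2le).eventually (by decide), hh.eventuallyEq_nhds, hLIe,
      hφc.eventually ((hmf.of_le h1le').eventually (by decide)),
      hφc.eventually ((hnf.of_le h1le').eventually (by decide))] with y a1 a2 a3 a4 a5 a6
    exact ⟨a1, a2, a3, a4, a5.differentiableAt (by norm_num), a6.differentiableAt (by norm_num)⟩
  have hV : vfd μ h =ᶠ[𝓝 x] fun y => vfd μ f (φ y) := by
    filter_upwards [hq.eventually_nhds] with y hy
    exact field_eq hNR hI1 hy μ
  refine ⟨hV.self_of_nhds, ?_⟩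
  -- the divergence
  have q : QH f h φ x := hq.self_of_nhds
  obtain ⟨-, hspan, hdet⟩ := Helper67.PI.spans f h x (φ x) (jac φ x) q.hJ q.li
  have hinv := Helper67.PI.gram_inv f h x (φ x) (jac φ x) q.hJ hdet
  have hVd : DifferentiableAt ℝ (vfd μ f) (φ x) :=
    (hIS n N f (φ x) hf hLIf μ).2.2.1.differentiableAt (by norm_num)
  have hφd : DifferentiableAt ℝ φ x := q.hφ.differentiableAt (by norm_num)
  have hdX : ∀ i : Fin n, fderiv ℝ (vfd μ h) x (ee i)
      = ∑ a, jac φ x i a • fderiv ℝ (vfd μ f) (φ x) (ee a) := by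
    intro i
    rw [hV.fderiv_eq, fderiv_fun_comp x hVd hφd, ContinuousLinearMap.comp_apply]
    exact Helper51.PI.lin_expand _ _
  unfold dvc
  have e1 : ∀ i j : Fin n, (gram h x)⁻¹ i j * (inner ℝ (fderiv ℝ (vfd μ h) x (ee i))
      (dv1 h x j) : ℝ) = (gram h x)⁻¹ i j • ∑ r, ∑ s, (jac φ x i r * jac φ x j s) •
        (inner ℝ (fderiv ℝ (vfd μ f) (φ x) (ee r)) (dv1 f (φ x) s) : ℝ) := by
    intro i j
    rw [smul_eq_mul]
    congr 1
    rw [hdX i, q.hJ j, sum_inner]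
    refine Finset.sum_congr rfl fun r _ => ?_
    rw [inner_sum]
    refine Finset.sum_congr rfl fun s _ => ?_
    rw [real_inner_smul_left, real_inner_smul_right, smul_eq_mul]
    ring
  simp_rw [e1]
  rw [Helper67.PI.contr, hinv]
  rfl

end Helper45.PI2
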