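import Pool.Agent.Helper35.PI2.St

/-! Project PI2: module RA1 (helper45). -/

set_option autoImplicit false

namespace Helper45.PI2

open Helper35.PI Helper35.PI2
open scoped ContDiff Manifold Topology ENNReal BigOperators
open MeasureTheory Set Filter

theorem hRA1 : StRA1 := by
  intro C δ hC hδ
  have hsδ : 0 < Real.sqrt δ := Real.sqrt_pos.2 hδ
  refine ⟨4 * C / Real.sqrt δ, by positivity, ?_⟩
  intro e d R hR hfin hineq hsq t₁ ht₁
  by_contra hcon
  push Not at hcon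
  have hR2 : 0 < R ^ 2 := by positivity
  -- times
  have htime : ∀ τ : ℝ, 0 ≤ τ → t₁ - R ^ 2 * τ < 0 := by
    intro τ hτ
    have : 0 ≤ R ^ 2 * τ := by positivity
    linarith
  obtain ⟨a, ha⟩ : ∃ a : ℝ → ℝ, ∀ τ, a τ = (e (t₁ - R ^ 2 * τ)).toReal := ⟨_, fun _ => rfl⟩
  have ha0 : ∀ τ, 0 ≤ a τ := fun τ => by rw [ha]; exact ENNReal.toReal_nonneg
  have hae : ∀ τ : ℝ, 0 ≤ τ → e (t₁ - R ^ 2 * τ) = ENNReal.ofReal (a τ) := by
    intro τ hτ
    rw [ha, ENNReal.ofReal_toReal (hfin _ (htime τ hτ)).ne]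
  -- the general inequality with a lower bound for d
  have hgen : ∀ τ τ' m : ℝ, 0 ≤ τ → τ ≤ τ' → 0 ≤ m → (∀ ρ, τ ≤ ρ → ρ ≤ τ' → m ≤ a ρ) →
      a τ + δ * (m ^ 2 / C) * (τ' - τ) ≤ a τ' + C * (τ' - τ) := by
    intro τ τ' m hτ hττ hm hlow
    have hτ' : 0 ≤ τ' := hτ.trans hττ
    have h1 := hineq (t₁ - R ^ 2 * τ') (t₁ - R ^ 2 * τ)
      (by nlinarith) (htime τ hτ)
    have hlen : C * (t₁ - R ^ 2 * τ - (t₁ - R ^ 2 * τ')) / R ^ 2 = C * (τ' - τ) := by
      field_simp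
      ring
    rw [hlen, hae τ hτ, hae τ' hτ'] at h1
    have hd : ∀ r ∈ Icc (t₁ - R ^ 2 * τ') (t₁ - R ^ 2 * τ),
        ENNReal.ofReal (m ^ 2 / (C * R ^ 2)) ≤ d r := by
      intro r hr
      have hr0 : r < 0 := lt_of_le_of_lt hr.2 (htime τ hτ)
      have hρ : r = t₁ - R ^ 2 * ((t₁ - r) / R ^ 2) := by
        field_simp
        ring
      have hρ1 : τ ≤ (t₁ - r) / R ^ 2 := by
        rw [le_div_iff₀ hR2]
        linarith [hr.2]
      have hρ2 : (t₁ - r) / R ^ 2 ≤ τ' := by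
        rw [div_le_iff₀ hR2]
        linarith [hr.1]
      have h2 := hlow _ hρ1 hρ2
      have h3 : e r = ENNReal.ofReal (a ((t₁ - r) / R ^ 2)) := by
        rw [← hae _ (hτ.trans hρ1), ← hρ]
      have h4 := hsq r hr0
      have h5 : ENNReal.ofReal (m ^ 2) ≤ ENNReal.ofReal (C * R ^ 2) * d r := by
        refine le_trans ?_ h4
        rw [h3, ← ENNReal.ofReal_pow (ha0 _)]
        exact ENNReal.ofReal_le_ofReal (by nlinarith)
      have hCR : 0 < C * R ^ 2 := by positivity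
      rw [ENNReal.ofReal_div_of_pos hCR]
      rw [ENNReal.div_le_iff_le_mul (Or.inl (by simpa using hCR)) (Or.inl ENNReal.ofReal_ne_top)]
      rw [mul_comm]
      exact h5
    have h6 : ENNReal.ofReal (m ^ 2 / (C * R ^ 2) * (R ^ 2 * (τ' - τ))) ≤
        ∫⁻ r in Icc (t₁ - R ^ 2 * τ') (t₁ - R ^ 2 * τ), d r := by
      have h7 : ∫⁻ r in Icc (t₁ - R ^ 2 * τ') (t₁ - R ^ 2 * τ),
          ENNReal.ofReal (m ^ 2 / (C * R ^ 2)) ≤
          ∫⁻ r in Icc (t₁ - R ^ 2 * τ') (t₁ - R ^ 2 * τ), d r :=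
        setLIntegral_mono' measurableSet_Icc hd
      refine le_trans (le_of_eq ?_) h7
      rw [setLIntegral_const, Real.volume_Icc, ← ENNReal.ofReal_mul (by positivity)]
      congr 1
      ring
    have h8 : m ^ 2 / (C * R ^ 2) * (R ^ 2 * (τ' - τ)) = m ^ 2 / C * (τ' - τ) := by
      field_simp
    rw [h8] at h6
    have h9 : ENNReal.ofReal (a τ) + ENNReal.ofReal δ * ENNReal.ofReal (m ^ 2 / C * (τ' - τ)) ≤
        ENNReal.ofReal (a τ') + ENNReal.ofReal (C * (τ' - τ)) := by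
      refine le_trans ?_ h1
      gcongr
    have hdiff : 0 ≤ τ' - τ := by linarith
    rw [← ENNReal.ofReal_mul hδ.le, ← ENNReal.ofReal_add (ha0 _) (by positivity),
      ← ENNReal.ofReal_add (ha0 _) (by positivity)] at h9
    have h10 := (ENNReal.ofReal_le_ofReal_iff (add_nonneg (ha0 _) (by positivity))).1 h9
    linarith
  have h1 : ∀ τ τ' : ℝ, 0 ≤ τ → τ ≤ τ' → a τ ≤ a τ' + C * (τ' - τ) := by
    intro τ τ' hτ hττ
    have := hgen τ τ' 0 hτ hττ le_rfl (fun ρ _ _ => ha0 ρ)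
    simpa using this
  -- the starting value
  have hm0 : 4 * C / Real.sqrt δ < a 0 := by
    have h2 : t₁ - R ^ 2 * 0 = t₁ := by ring
    rw [ha, h2]
    exact (ENNReal.ofReal_lt_iff_lt_toReal (by positivity) (hfin t₁ ht₁).ne).1 hcon
  set m₀ : ℝ := a 0 with hm₀
  have hm₀pos : 0 < m₀ := lt_trans (by positivity) hm0
  have hm₀sq : 16 * C ^ 2 < δ * m₀ ^ 2 := by
    rw [div_lt_iff₀ hsδ] at hm0
    have h3 : (4 * C) ^ 2 < (m₀ * Real.sqrt δ) ^ 2 := by
      apply pow_lt_pow_left₀ hm0 (by positivity) (by norm_num)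
    rw [mul_pow, mul_pow, Real.sq_sqrt hδ.le] at h3
    nlinarith
  -- doubling
  have hdbl : ∀ τ m : ℝ, 0 ≤ τ → m₀ ≤ m → m ≤ a τ → 2 * m ≤ a (τ + 8 * C / (δ * m)) := by
    intro τ m hτ hm hma
    have hmpos : 0 < m := lt_of_lt_of_le hm₀pos hm
    have hmsq : 16 * C ^ 2 < δ * m ^ 2 := by
      have : m₀ ^ 2 ≤ m ^ 2 := pow_le_pow_left₀ hm₀pos.le hm 2
      nlinarith
    obtain ⟨h, hh⟩ : ∃ h : ℝ, h = 8 * C / (δ * m) := ⟨_, rfl⟩
    rw [← hh]
    have hhpos : 0 < h := by rw [hh]; positivity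
    have hhm : δ * m * h = 8 * C := by
      rw [hh]
      field_simp
    have hCh : C * h ≤ m / 2 := by
      have h4 : C * h * (δ * m) = 8 * C ^ 2 := by
        calc C * h * (δ * m) = C * (δ * m * h) := by ring
          _ = 8 * C ^ 2 := by rw [hhm]; ring
      have h5 : C * h * (δ * m) ≤ m / 2 * (δ * m) := by
        rw [h4]
        nlinarith
      exact le_of_mul_le_mul_right h5 (by positivity)
    have hlow : ∀ ρ, τ ≤ ρ → ρ ≤ τ + h → m / 2 ≤ a ρ := by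
      intro ρ hρ1 hρ2
      have h6 := h1 τ ρ hτ hρ1
      have h7 : C * (ρ - τ) ≤ C * h := by
        apply mul_le_mul_of_nonneg_left _ hC.le
        linarith
      linarith
    have h8 := hgen τ (τ + h) (m / 2) hτ (by linarith) (by positivity) hlow
    have h9 : δ * ((m / 2) ^ 2 / C) * (τ + h - τ) = 2 * m := by
      have : δ * ((m / 2) ^ 2 / C) * (τ + h - τ) = (δ * m * h) * m / (4 * C) := by
        field_simp
        ring
      rw [this, hhm]
      field_simp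
      ring
    rw [h9] at h8
    have h10 : C * (τ + h - τ) = C * h := by ring
    rw [h10] at h8
    linarith
  -- iteration
  have hiter : ∀ k : ℕ, ∃ τ : ℝ, 0 ≤ τ ∧ τ ≤ 16 * C / (δ * m₀) * (1 - (1 / 2) ^ k) ∧
      2 ^ k * m₀ ≤ a τ := by
    intro k
    induction k with
    | zero => exact ⟨0, le_rfl, by simp, by simp [hm₀]⟩
    | succ k ih =>
      obtain ⟨τ, hτ0, hτ1, hτ2⟩ := ih
      have h2k : (1 : ℝ) ≤ 2 ^ k := one_le_pow₀ (by norm_num)
      have hmk : m₀ ≤ 2 ^ k * m₀ := by nlinarith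
      refine ⟨τ + 8 * C / (δ * (2 ^ k * m₀)), by positivity, ?_, ?_⟩
      · have h3 : 8 * C / (δ * (2 ^ k * m₀)) = 16 * C / (δ * m₀) * ((1 / 2) ^ k * (1 / 2)) := by
          rw [one_div, inv_pow]
          field_simp
          ring
        rw [h3, pow_succ]
        have h4 : 16 * C / (δ * m₀) * (1 - (1 / 2) ^ k * (1 / 2)) =
            16 * C / (δ * m₀) * (1 - (1 / 2) ^ k) + 16 * C / (δ * m₀) * ((1 / 2) ^ k * (1 / 2)) := by
          ring
        rw [h4]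
        linarith
      · have h5 := hdbl τ (2 ^ k * m₀) hτ0 hmk hτ2
        rw [pow_succ]
        linarith
  have hT : (0 : ℝ) ≤ 16 * C / (δ * m₀) := by positivity
  obtain ⟨T, hTdef⟩ : ∃ T : ℝ, T = 16 * C / (δ * m₀) := ⟨_, rfl⟩
  rw [← hTdef] at hT
  obtain ⟨k, hk⟩ := pow_unbounded_of_one_lt ((a T + C * T) / m₀) (by norm_num : (1 : ℝ) < 2)
  rw [div_lt_iff₀ hm₀pos] at hk
  obtain ⟨τ, hτ0, hτ1, hτ2⟩ := hiter k
  rw [← hTdef] at hτ1
  have hτT : τ ≤ T := by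
    refine hτ1.trans ?_
    have : (0 : ℝ) ≤ (1 / 2) ^ k := by positivity
    nlinarith
  have h6 := h1 τ T hτ0 hτT
  have h7 : C * (T - τ) ≤ C * T := by
    apply mul_le_mul_of_nonneg_left _ hC.le
    linarith
  linarith

end Helper45.PI2
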